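import Mathlib
import Pool.Agent.Results.MP_115300_gt.Classification
import Pool.Agent.Results.MP_43d316_gt.Classification

namespace Pool.Agent.Results.MP_115300_gt.ReducedRings

open Pool.Agent.Helper62.Skein
open Pool.Agent.Results.MP_115300_gt.Classification (TrivialLinksIndependent FamilyI FamilyII
  FamilyIII BinomialFamily necessary domain_cases binomial_of)
open Pool.Agent.Results.MP_43d316_gt.Classification (cc cc_smul cc_link cc_mem)

/-- The images of the parameters in `R / p` satisfy the condition `C`. -/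
def Mod {R : Type*} [CommRing R] (p : Ideal R)
    (C : (R ⧸ p)ˣ → (R ⧸ p)ˣ → (R ⧸ p)ˣ → R ⧸ p → R ⧸ p → Prop) (a b0 b3 : Rˣ) (b1 b2 : R) : Prop :=
  C (Units.map (Ideal.Quotient.mk p : R →* R ⧸ p) a)
    (Units.map (Ideal.Quotient.mk p : R →* R ⧸ p) b0)
    (Units.map (Ideal.Quotient.mk p : R →* R ⧸ p) b3)
    (Ideal.Quotient.mk p b1) (Ideal.Quotient.mk p b2)

/-- Over a reduced ring independence may be tested modulo the minimal primes. -/
theorem indep_of_quotients {R : Type*} [CommRing R] [IsReduced R] (a b0 b3 : Rˣ) (b1 b2 bi : R)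
    (h : ∀ p ∈ minimalPrimes R, TrivialLinksIndependent
      (Units.map (Ideal.Quotient.mk p : R →* R ⧸ p) a)
      (Units.map (Ideal.Quotient.mk p : R →* R ⧸ p) b0)
      (Units.map (Ideal.Quotient.mk p : R →* R ⧸ p) b3)
      (Ideal.Quotient.mk p b1) (Ideal.Quotient.mk p b2) (Ideal.Quotient.mk p bi)) :
    TrivialLinksIndependent a b0 b3 b1 b2 bi := by
  unfold TrivialLinksIndependent
  rw [linearIndependent_iff']
  intro s g hg i hi
  have hm : ∑ j ∈ s, g j • link R (trivialLink j) ∈ relations R a b0 b3 b1 b2 bi := by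
    rw [← Submodule.Quotient.mk_eq_zero, ← Submodule.mkQ_apply, map_sum]
    simpa only [map_smul] using hg
  have hall : g i ∈ sInf (minimalPrimes R) := by
    rw [Ideal.mem_sInf]
    intro p hp
    have h1 := cc_mem (Ideal.Quotient.mk p) a b0 b3 b1 b2 bi hm
    rw [map_sum] at h1
    simp only [cc_smul, cc_link] at h1
    have h2 := h p hp
    unfold TrivialLinksIndependent at h2
    rw [linearIndependent_iff'] at h2
    have h3 := h2 s (fun j => Ideal.Quotient.mk p (g j)) (by
      have h4 := (Submodule.Quotient.mk_eq_zero _).2 h1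
      rw [← Submodule.mkQ_apply, map_sum] at h4
      simpa only [map_smul] using h4) i hi
    exact Ideal.Quotient.eq_zero_iff_mem.1 h3
  have hbot : sInf (minimalPrimes R) = ⊥ := by
    rw [minimalPrimes, Ideal.sInf_minimalPrimes]
    exact nilradical_eq_zero R
  rw [hbot] at hall
  simpa using hall

theorem necessary_mod {R : Type*} [CommRing R] (a b0 b3 : Rˣ) (b1 b2 bi : R)
    (h : TrivialLinksIndependent a b0 b3 b1 b2 bi) (p : Ideal R) [hp : p.IsPrime] :
    Mod p FamilyI a b0 b3 b1 b2 ∨ Mod p BinomialFamily a b0 b3 b1 b2 ∨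
      (b1 ∉ p ∧ (Mod p FamilyII a b0 b3 b1 b2 ∨ Mod p FamilyIII a b0 b3 b1 b2)) := by
  obtain ⟨-, q2, q1, u, v⟩ := necessary a b0 b3 b1 b2 bi h
  have q2' := congrArg (Ideal.Quotient.mk p) q2
  have q1' := congrArg (Ideal.Quotient.mk p) q1
  have u' := congrArg (Ideal.Quotient.mk p) u
  have v' := congrArg (Ideal.Quotient.mk p) v
  simp only [map_mul, map_add, map_pow, map_zero] at q2' q1' u' v'
  rcases domain_cases (Units.map (Ideal.Quotient.mk p : R →* R ⧸ p) a)
    (Units.map (Ideal.Quotient.mk p : R →* R ⧸ p) b0)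
    (Units.map (Ideal.Quotient.mk p : R →* R ⧸ p) b3)
    (Ideal.Quotient.mk p b1) (Ideal.Quotient.mk p b2) (by simpa using q2') (by simpa using q1')
    (by simpa using u') (by simpa using v') with h1 | h1
  · exact Or.inl h1
  · right
    by_cases hb : b1 ∈ p
    · left
      exact binomial_of _ _ _ _ _ h1 (Ideal.Quotient.eq_zero_iff_mem.2 hb)
    · right
      exact ⟨hb, h1⟩

/-- **Reduced rings.** The classes of the trivial links `T_0, T_1, T_2, ...` over a reduced
commutative ring.
(1) If they are linearly independent, then `b_∞ = 0` and at every minimal prime `p` the parameters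
are, modulo `p`, in family I or in the binomial family, or `b_1` is not in `p` and they are in one
of the families II, III.
(2) If `b_∞ = 0` and at every minimal prime `p` the parameters are, modulo `p`, in family I or in
the binomial family (which of the two may depend on `p`), then they are linearly independent.
(3) So this is an equivalence if at no minimal prime `p` the parameters are in family II or III
with `b_1` outside `p`. -/
theorem result {R : Type*} [CommRing R] [IsReduced R] (a b0 b3 : Rˣ) (b1 b2 bi : R) :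
    (TrivialLinksIndependent a b0 b3 b1 b2 bi →
      bi = 0 ∧ ∀ p ∈ minimalPrimes R,
        Mod p FamilyI a b0 b3 b1 b2 ∨ Mod p BinomialFamily a b0 b3 b1 b2 ∨
          (b1 ∉ p ∧ (Mod p FamilyII a b0 b3 b1 b2 ∨ Mod p FamilyIII a b0 b3 b1 b2))) ∧
    (bi = 0 ∧ (∀ p ∈ minimalPrimes R,
        Mod p FamilyI a b0 b3 b1 b2 ∨ Mod p BinomialFamily a b0 b3 b1 b2) →
      TrivialLinksIndependent a b0 b3 b1 b2 bi) ∧
    ((∀ p ∈ minimalPrimes R, b1 ∈ p ∨
        ¬ (Mod p FamilyII a b0 b3 b1 b2 ∨ Mod p FamilyIII a b0 b3 b1 b2)) →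
      (TrivialLinksIndependent a b0 b3 b1 b2 bi ↔
        bi = 0 ∧ ∀ p ∈ minimalPrimes R,
          Mod p FamilyI a b0 b3 b1 b2 ∨ Mod p BinomialFamily a b0 b3 b1 b2)) := by
  have nec : TrivialLinksIndependent a b0 b3 b1 b2 bi →
      bi = 0 ∧ ∀ p ∈ minimalPrimes R,
        Mod p FamilyI a b0 b3 b1 b2 ∨ Mod p BinomialFamily a b0 b3 b1 b2 ∨
          (b1 ∉ p ∧ (Mod p FamilyII a b0 b3 b1 b2 ∨ Mod p FamilyIII a b0 b3 b1 b2)) := by
    intro h
    refine ⟨(necessary a b0 b3 b1 b2 bi h).1, fun p hp => ?_⟩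
    have hprime : p.IsPrime := hp.1.1
    exact necessary_mod a b0 b3 b1 b2 bi h p
  have suf : bi = 0 ∧ (∀ p ∈ minimalPrimes R,
        Mod p FamilyI a b0 b3 b1 b2 ∨ Mod p BinomialFamily a b0 b3 b1 b2) →
      TrivialLinksIndependent a b0 b3 b1 b2 bi := by
    rintro ⟨rfl, h⟩
    apply indep_of_quotients
    intro p hp
    exact (Pool.Agent.Results.MP_115300_gt.Classification.result _ _ _ _ _ _).2.1
      ⟨map_zero _, h p hp⟩
  refine ⟨nec, suf, fun hex => ⟨fun h => ?_, suf⟩⟩
  obtain ⟨h0, h1⟩ := nec h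
  refine ⟨h0, fun p hp => ?_⟩
  rcases h1 p hp with h2 | h2 | ⟨h2, h3⟩
  · exact Or.inl h2
  · exact Or.inr h2
  · rcases hex p hp with h4 | h4
    · exact absurd h4 h2
    · exact absurd h3 h4

end Pool.Agent.Results.MP_115300_gt.ReducedRings
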